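import Pool.Agent.Helper73.RG.Trap
import Pool.Agent.Helper73.MD.Arc

/-!
Weyl's criterion, quantitative form, for arcs depending on the index.
-/

set_option autoImplicit false

open Finset Real

namespace Pool.Agent.Helper73.NM

open Pool.Agent.Helper73.MD (ee ee_add norm_ee)
open Pool.Agent.Helper73.RG (trap)

/-- truncation of a series with terms `O(1/h^2)` -/
lemma tail {f : ℕ → ℝ} {S C : ℝ} (hf : HasSum f S) (hC : ∀ h : ℕ, |f h| ≤ C / ((h : ℝ) + 1) ^ 2)
    {H : ℕ} (hH : 0 < H) : |S - ∑ h ∈ range H, f h| ≤ C / H := by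
  have hC0 : 0 ≤ C := by
    have := (abs_nonneg _).trans (hC 0)
    simpa using this
  have hHr : (0 : ℝ) < H := by exact_mod_cast hH
  have key : ∀ n, H ≤ n → |∑ h ∈ range n, f h - ∑ h ∈ range H, f h| ≤ C * (1 / H - 1 / n) := by
    intro n hn
    induction n, hn using Nat.le_induction with
    | base => simp
    | succ n hn ih =>
      have hn0 : (0 : ℝ) < n := by exact_mod_cast (lt_of_lt_of_le hH hn)
      rw [sum_range_succ]
      have h1 : ∑ h ∈ range n, f h + f n - ∑ h ∈ range H, f h =
          (∑ h ∈ range n, f h - ∑ h ∈ range H, f h) + f n := by ring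
      rw [h1]
      refine (abs_add_le _ _).trans ?_
      have h2 : C / ((n : ℝ) + 1) ^ 2 ≤ C * (1 / n - 1 / ((n + 1 : ℕ) : ℝ)) := by
        have h3 : C * (1 / n - 1 / ((n + 1 : ℕ) : ℝ)) = C / (n * (n + 1)) := by
          push_cast
          field_simp
          ring
        rw [h3]
        have : (n : ℝ) * (n + 1) ≤ ((n : ℝ) + 1) ^ 2 := by nlinarith
        gcongr
      have h4 := hC n
      calc _ ≤ C * (1 / H - 1 / n) + C / ((n : ℝ) + 1) ^ 2 := add_le_add ih h4
        _ ≤ C * (1 / H - 1 / n) + C * (1 / n - 1 / ((n + 1 : ℕ) : ℝ)) := by linarith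
        _ = C * (1 / H - 1 / ((n + 1 : ℕ) : ℝ)) := by ring
  have hlim := (hf.tendsto_sum_nat.sub_const (∑ h ∈ range H, f h)).abs
  refine le_of_tendsto hlim ?_
  filter_upwards [Filter.eventually_ge_atTop H] with n hn
  refine (key n hn).trans ?_
  have hn0 : (0 : ℝ) < n := by exact_mod_cast (lt_of_lt_of_le hH hn)
  have h5 : C * (1 / H - 1 / n) = C / H - C / n := by ring
  rw [h5]
  have : 0 ≤ C / n := by positivity
  linarith

lemma re_ee (t : ℝ) : (ee t).re = cos (2 * π * t) := by
  unfold ee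
  rw [Complex.exp_ofReal_mul_I_re]

/-- too few hits -/
theorem low {η : ℝ} (hη : 0 < η) {H : ℕ} (hH : 8 / η ^ 2 ≤ H) (hH0 : 0 < H) (u len : ℕ → ℝ)
    (hlen : ∀ i, 0 ≤ len i ∧ len i ≤ 1) :
    ∃ c : ℕ → ℕ → ℂ, (∀ i h, ‖c i h‖ ≤ 1) ∧ ∀ (k : ℕ) (y : ℕ → ℝ),
      (#{i ∈ range k | Int.fract (y i - u i) < len i} : ℝ) ≤ ∑ i ∈ range k, len i - η * k →
      ∃ h, 1 ≤ h ∧ h ≤ H ∧ η ^ 2 / (8 * H) * k ≤ (∑ i ∈ range k, c i h * ee (h * y i)).re := by
  choose κ m c a h0 h1 h2 h3 h4 h5 h6 h7 using
    fun i => trap hη (hlen i).1 (hlen i).2 (u i)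
  have hHr : (0 : ℝ) < H := by exact_mod_cast hH0
  have hak : ∀ i h, |a i h| ≤ 2 / η := by
    intro i h
    refine (h6 i h).trans (div_le_self (by positivity) ?_)
    have : (0 : ℝ) ≤ h := Nat.cast_nonneg _
    nlinarith
  refine ⟨fun i n => ((-(a i (n - 1)) * (η / 2) : ℝ) : ℂ) * ee (-(n * c i)), ?_, ?_⟩
  · intro i n
    rw [norm_mul, norm_ee, mul_one, Complex.norm_real, Real.norm_eq_abs, abs_mul, abs_neg,
      abs_of_pos (by positivity : 0 < η / 2)]
    calc |a i (n - 1)| * (η / 2) ≤ 2 / η * (η / 2) := by gcongr; exact hak i _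
      _ = 1 := by field_simp
  · intro k y hk
    by_contra hcon
    push Not at hcon
    -- sums
    have e1 : ∑ i ∈ range k, κ i (y i) ≤ ∑ i ∈ range k, len i - η * k := by
      refine le_trans ?_ hk
      rw [card_filter]
      push_cast
      refine sum_le_sum fun i _ => ?_
      split_ifs with h
      · exact h1 i _
      · rw [h2 i _ (not_lt.mp h)]
    have e2 : ∑ i ∈ range k, len i - η / 2 * k ≤ ∑ i ∈ range k, m i := by
      have : ∑ i ∈ range k, (len i - η / 2) ≤ ∑ i ∈ range k, m i :=
        sum_le_sum fun i _ => h3 i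
      rw [sum_sub_distrib, sum_const, card_range, nsmul_eq_mul] at this
      linarith
    have e3 : ∑ i ∈ range k, (κ i (y i) - m i) ≤ -(η / 2 * k) := by
      rw [sum_sub_distrib]
      linarith
    -- truncation
    have e4 : ∀ i, |(κ i (y i) - m i) - ∑ h ∈ range H,
        a i h * cos (2 * π * ((h : ℝ) + 1) * (y i - c i))| ≤ η / 4 := by
      intro i
      have h8 := tail (h7 i (y i)) (C := 2 / η) (fun h => by
        rw [abs_mul]
        calc |a i h| * |cos (2 * π * ((h : ℝ) + 1) * (y i - c i))| ≤ |a i h| * 1 := by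
              gcongr
              exact Real.abs_cos_le_one _
          _ ≤ _ := by rw [mul_one]; exact h6 i h) hH0
      refine h8.trans ?_
      rw [div_le_iff₀ hHr]
      have h9 : 2 / η = η / 4 * (8 / η ^ 2) := by
        field_simp
        norm_num
      rw [h9]
      gcongr
    have e5 : ∑ i ∈ range k, ∑ h ∈ range H, a i h * cos (2 * π * ((h : ℝ) + 1) * (y i - c i)) ≤
        -(η / 4 * k) := by
      have h8 : ∑ i ∈ range k, ∑ h ∈ range H,
          a i h * cos (2 * π * ((h : ℝ) + 1) * (y i - c i)) ≤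
          ∑ i ∈ range k, ((κ i (y i) - m i) + η / 4) := by
        refine sum_le_sum fun i _ => ?_
        have := (abs_le.mp (e4 i)).1
        linarith
      rw [sum_add_distrib, sum_const, card_range, nsmul_eq_mul] at h8
      linarith
    rw [sum_comm] at e5
    -- each frequency
    have e6 : ∀ h ∈ range H, -(η / (4 * H) * k) < ∑ i ∈ range k,
        a i h * cos (2 * π * ((h : ℝ) + 1) * (y i - c i)) ∨ k = 0 := by
      intro h hh
      rcases Nat.eq_zero_or_pos k with hk0 | hk0
      · right; exact hk0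
      left
      have h8 := hcon (h + 1) (by omega) (by rw [mem_range] at hh; omega)
      rw [Complex.re_sum] at h8
      have h9 : ∀ i ∈ range k, (((-(a i (h + 1 - 1)) * (η / 2) : ℝ) : ℂ) *
          ee (-(((h + 1 : ℕ) : ℝ) * c i)) * ee (((h + 1 : ℕ) : ℝ) * y i)).re =
          -(η / 2) * (a i h * cos (2 * π * ((h : ℝ) + 1) * (y i - c i))) := by
        intro i _
        rw [mul_assoc, ← ee_add, Complex.re_ofReal_mul, re_ee, Nat.add_sub_cancel]
        have : 2 * π * (-(((h + 1 : ℕ) : ℝ) * c i) + ((h + 1 : ℕ) : ℝ) * y i) =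
            2 * π * ((h : ℝ) + 1) * (y i - c i) := by
          push_cast
          ring
        rw [this]
        ring
      rw [sum_congr rfl h9, ← mul_sum] at h8
      have h10 : η ^ 2 / (8 * H) * k = (η / 2) * (η / (4 * H) * k) := by
        field_simp
        ring
      rw [h10] at h8
      have h11 : (η / 2) * (-(∑ i ∈ range k,
          a i h * cos (2 * π * ((h : ℝ) + 1) * (y i - c i)))) < (η / 2) * (η / (4 * H) * k) := by
        linarith
      have h12 := lt_of_mul_lt_mul_left h11 (by positivity)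
      linarith
    rcases Nat.eq_zero_or_pos k with hk0 | hk0
    · subst hk0
      have h8 := hcon 1 le_rfl hH0
      simp at h8
    · have e7 : ∀ h ∈ range H, -(η / (4 * H) * k) < ∑ i ∈ range k,
          a i h * cos (2 * π * ((h : ℝ) + 1) * (y i - c i)) := by
        intro h hh
        rcases e6 h hh with h8 | h8
        · exact h8
        · omega
      have e8 := sum_lt_sum_of_nonempty (nonempty_range_iff.mpr hH0.ne') e7
      rw [sum_const, card_range, nsmul_eq_mul] at e8
      have e9 : (H : ℝ) * -(η / (4 * H) * k) = -(η / 4 * k) := by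
        field_simp
      rw [e9] at e8
      linarith

/-- complementary arcs -/
lemma fract_compl {u len y : ℝ} (h0 : 0 ≤ len) (h1 : len ≤ 1) :
    Int.fract (y - (u + len)) < 1 - len ↔ ¬ Int.fract (y - u) < len := by
  set t := Int.fract (y - u) with ht
  have ht0 : 0 ≤ t := Int.fract_nonneg _
  have ht1 : t < 1 := Int.fract_lt_one _
  have e : y - (u + len) = (t - len) + ⌊y - u⌋ := by
    have : y - u = t + ⌊y - u⌋ := (Int.fract_add_floor _).symm
    linarith
  rw [e, Int.fract_add_intCast]
  rcases lt_or_ge t len with h | h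
  · have h2 : Int.fract (t - len) = t - len + 1 := by
      have h3 : t - len = (t - len + 1) + ((-1 : ℤ) : ℝ) := by push_cast; ring
      rw [h3, Int.fract_add_intCast, Int.fract_eq_self.mpr ⟨by linarith, by linarith⟩]
      push_cast
      ring
    rw [h2]
    constructor
    · intro h4
      linarith
    · intro h4
      exact absurd h h4
  · have h2 : Int.fract (t - len) = t - len :=
      Int.fract_eq_self.mpr ⟨by linarith, by linarith⟩
    rw [h2]
    constructor
    · intro _
      exact not_lt.mpr h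
    · intro _
      linarith [ht1]

/-- **Weyl's criterion for arcs depending on the index.** -/
theorem weyl_arcs {η : ℝ} (hη : 0 < η) : ∃ (H : ℕ) (e : ℝ), 0 < e ∧ ∀ u len : ℕ → ℝ,
    (∀ i, 0 ≤ len i ∧ len i ≤ 1) → ∃ c : Bool → ℕ → ℕ → ℂ, (∀ s i h, ‖c s i h‖ ≤ 1) ∧
      ∀ (k : ℕ) (y : ℕ → ℝ),
        η * k ≤ |(#{i ∈ range k | Int.fract (y i - u i) < len i} : ℝ) - ∑ i ∈ range k, len i| →
        ∃ (s : Bool) (h : ℕ), 1 ≤ h ∧ h ≤ H ∧
          e * k ≤ (∑ i ∈ range k, c s i h * ee (h * y i)).re := by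
  obtain ⟨H, hH⟩ := exists_nat_ge (8 / η ^ 2)
  have hHr : (0 : ℝ) < H := lt_of_lt_of_le (by positivity) hH
  have hH0 : 0 < H := by exact_mod_cast hHr
  refine ⟨H, η ^ 2 / (8 * H), by positivity, fun u len hlen => ?_⟩
  obtain ⟨c₀, hc₀, h₀⟩ := low hη hH hH0 u len hlen
  obtain ⟨c₁, hc₁, h₁⟩ := low hη hH hH0 (fun i => u i + len i) (fun i => 1 - len i)
    (fun i => ⟨by linarith [(hlen i).2], by linarith [(hlen i).1]⟩)
  refine ⟨fun s => if s then c₁ else c₀, ?_, ?_⟩
  · intro s i h
    cases s
    · exact hc₀ i h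
    · exact hc₁ i h
  · intro k y hk
    rcases le_abs.mp hk with h | h
    · have e1 : (#{i ∈ range k | Int.fract (y i - (u i + len i)) < 1 - len i} : ℝ) =
          k - #{i ∈ range k | Int.fract (y i - u i) < len i} := by
        have e2 : ({i ∈ range k | Int.fract (y i - (u i + len i)) < 1 - len i} : Finset ℕ) =
            {i ∈ range k | ¬ Int.fract (y i - u i) < len i} :=
          filter_congr fun i _ => fract_compl (hlen i).1 (hlen i).2
        have e3 := card_filter_add_card_filter_not (s := range k)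
          (fun i => Int.fract (y i - u i) < len i)
        rw [card_range] at e3
        rw [e2]
        have e4 : (#{i ∈ range k | Int.fract (y i - u i) < len i} : ℝ) +
            #{i ∈ range k | ¬ Int.fract (y i - u i) < len i} = k := by
          exact_mod_cast e3
        linarith
      have e5 : (#{i ∈ range k | Int.fract (y i - (u i + len i)) < 1 - len i} : ℝ) ≤
          ∑ i ∈ range k, (1 - len i) - η * k := by
        rw [e1, sum_sub_distrib, sum_const, card_range, nsmul_eq_mul, mul_one]
        linarith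
      obtain ⟨n, hn1, hn2, hn3⟩ := h₁ k y e5
      exact ⟨true, n, hn1, hn2, hn3⟩
    · obtain ⟨n, hn1, hn2, hn3⟩ := h₀ k y (by linarith)
      exact ⟨false, n, hn1, hn2, hn3⟩

end Pool.Agent.Helper73.NM
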