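import Pool.Agent.Helper73.NM.Arcs

/-!
Weyl's criterion in two variables, for boxes depending on the index.
-/

set_option autoImplicit false

open Finset Real

namespace Pool.Agent.Helper73.NM

open Pool.Agent.Helper73.MD (ee ee_add norm_ee ee_zero)
open Pool.Agent.Helper73.RG (trap)

lemma sum_Icc_symm (F : ℤ → ℂ) (H : ℕ) : ∑ h ∈ Icc (-(H : ℤ)) H, F h =
    F 0 + ∑ n ∈ range H, (F ((n : ℤ) + 1) + F (-((n : ℤ) + 1))) := by
  induction H with
  | zero => simp
  | succ H ih =>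
    have h1 : Icc (-((H + 1 : ℕ) : ℤ)) ((H + 1 : ℕ) : ℤ) =
        insert ((H : ℤ) + 1) (insert (-((H : ℤ) + 1)) (Icc (-(H : ℤ)) H)) := by
      ext x
      simp only [mem_insert, mem_Icc]
      push_cast
      omega
    rw [h1, sum_insert, sum_insert, ih, sum_range_succ]
    · ring
    · simp only [mem_Icc]
      omega
    · simp only [mem_insert, mem_Icc]
      omega

lemma cos_eq_ee (t : ℝ) : ((cos (2 * π * t) : ℝ) : ℂ) = (ee t + ee (-t)) / 2 := by
  unfold ee
  rw [Complex.ofReal_cos, Complex.cos]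
  congr 2
  · congr 1
    push_cast
    ring

/-- trigonometric polynomials which approximate minorants of arcs -/
theorem approx {δ : ℝ} (hδ : 0 < δ) {H : ℕ} (hH : 0 < H) {l : ℝ} (hl0 : 0 ≤ l) (hl1 : l ≤ 1)
    (β : ℝ) : ∃ (κ : ℝ → ℝ) (m : ℝ) (α : ℤ → ℂ), (∀ u, 0 ≤ κ u) ∧ (∀ u, κ u ≤ 1) ∧
      (∀ u, l ≤ Int.fract (u - β) → κ u = 0) ∧ l - δ / 2 ≤ m ∧ 0 ≤ m ∧ m ≤ l ∧ α 0 = m ∧
      (∀ h, ‖α h‖ ≤ max 1 (1 / δ)) ∧
      ∀ y, ‖(κ y : ℂ) - ∑ h ∈ Icc (-(H : ℤ)) H, α h * ee (h * y)‖ ≤ 2 / δ / H := by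
  obtain ⟨κ, m, c, a, h0, h1, h2, h3, h4, h5, h6, h7⟩ := trap hδ hl0 hl1 β
  have ha : ∀ n, |a n| ≤ 2 / δ := by
    intro n
    refine (h6 n).trans (div_le_self (by positivity) ?_)
    have : (0 : ℝ) ≤ n := Nat.cast_nonneg _
    nlinarith
  refine ⟨κ, m, fun h => if h = 0 then (m : ℂ) else ((a (h.natAbs - 1) / 2 : ℝ) : ℂ) *
    ee (-(h * c)), h0, h1, h2, h3, h4, h5, by simp, ?_, ?_⟩
  · intro h
    by_cases hh : h = 0
    · simp only [hh, if_true]
      rw [Complex.norm_real, Real.norm_eq_abs, abs_of_nonneg h4]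
      exact (h5.trans hl1).trans (le_max_left _ _)
    · simp only [hh, if_false]
      rw [norm_mul, norm_ee, mul_one, Complex.norm_real, Real.norm_eq_abs, abs_div, abs_two]
      refine le_trans ?_ (le_max_right _ _)
      have := ha (h.natAbs - 1)
      rw [div_le_iff₀ (by norm_num)]
      have e : 1 / δ * 2 = 2 / δ := by ring
      rw [e]
      exact this
  · intro y
    rw [sum_Icc_symm]
    have e1 : ∀ n ∈ range H,
        ((if ((n : ℤ) + 1) = 0 then (m : ℂ) else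
          ((a (((n : ℤ) + 1).natAbs - 1) / 2 : ℝ) : ℂ) * ee (-((((n : ℤ) + 1 : ℤ) : ℝ) * c))) *
            ee ((((n : ℤ) + 1 : ℤ) : ℝ) * y) +
        (if (-((n : ℤ) + 1)) = 0 then (m : ℂ) else
          ((a ((-((n : ℤ) + 1)).natAbs - 1) / 2 : ℝ) : ℂ) *
            ee (-(((-((n : ℤ) + 1) : ℤ) : ℝ) * c))) *
            ee (((-((n : ℤ) + 1) : ℤ) : ℝ) * y)) =
        ((a n * cos (2 * π * ((n : ℝ) + 1) * (y - c)) : ℝ) : ℂ) := by
      intro n _
      rw [if_neg (by omega), if_neg (by omega)]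
      have e2 : ((n : ℤ) + 1).natAbs - 1 = n := by omega
      have e3 : (-((n : ℤ) + 1)).natAbs - 1 = n := by omega
      rw [e2, e3, mul_assoc, mul_assoc, ← ee_add, ← ee_add]
      have e4 : 2 * π * ((n : ℝ) + 1) * (y - c) = 2 * π * (((n : ℝ) + 1) * (y - c)) := by ring
      rw [Complex.ofReal_mul, e4, cos_eq_ee]
      have e5 : -((((n : ℤ) + 1 : ℤ) : ℝ) * c) + (((n : ℤ) + 1 : ℤ) : ℝ) * y =
          ((n : ℝ) + 1) * (y - c) := by
        push_cast
        ring
      have e6 : -(((-((n : ℤ) + 1) : ℤ) : ℝ) * c) + ((-((n : ℤ) + 1) : ℤ) : ℝ) * y =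
          -(((n : ℝ) + 1) * (y - c)) := by
        push_cast
        ring
      rw [e5, e6]
      push_cast
      ring
    rw [sum_congr rfl e1]
    have e7 : (κ y : ℂ) - ((if (0 : ℤ) = 0 then (m : ℂ) else
        ((a ((0 : ℤ).natAbs - 1) / 2 : ℝ) : ℂ) * ee (-(((0 : ℤ) : ℝ) * c))) *
          ee (((0 : ℤ) : ℝ) * y) +
        ∑ n ∈ range H, ((a n * cos (2 * π * ((n : ℝ) + 1) * (y - c)) : ℝ) : ℂ)) =
        (((κ y - m) - ∑ n ∈ range H, a n * cos (2 * π * ((n : ℝ) + 1) * (y - c)) : ℝ) : ℂ) := by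
      rw [if_pos rfl, Int.cast_zero, zero_mul, ee_zero, mul_one]
      push_cast
      ring
    rw [e7, Complex.norm_real, Real.norm_eq_abs]
    exact tail (h7 y) (C := 2 / δ) (fun h => by
        rw [abs_mul]
        calc |a h| * |cos (2 * π * ((h : ℝ) + 1) * (y - c))| ≤ |a h| * 1 := by
              gcongr
              exact Real.abs_cos_le_one _
          _ ≤ _ := by rw [mul_one]; exact h6 h) hH

/-- too few hits in boxes -/
theorem low2 {η : ℝ} (hη : 0 < η) {H : ℕ} (hH0 : 0 < H) (hH : 48 / η ^ 2 ≤ H)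
    (u len v len' : ℕ → ℝ) (hlen : ∀ i, 0 ≤ len i ∧ len i ≤ 1)
    (hlen' : ∀ i, 0 ≤ len' i ∧ len' i ≤ 1) :
    ∃ c : ℕ → ℤ → ℤ → ℂ, (∀ i h h', ‖c i h h'‖ ≤ 1) ∧ ∀ (T : Finset ℕ) (k : ℕ) (y z : ℕ → ℝ),
      #T ≤ k →
      (#{i ∈ T | Int.fract (y i - u i) < len i ∧ Int.fract (z i - v i) < len' i} : ℝ) ≤
        ∑ i ∈ T, len i * len' i - η * k →
      ∃ h h' : ℤ, ¬ (h = 0 ∧ h' = 0) ∧ |h| ≤ H ∧ |h'| ≤ H ∧
        η / 4 / (max 1 (2 / η) ^ 2 * (2 * H + 1) ^ 2) * k ≤
          (∑ i ∈ T, c i h h' * ee (h * y i + h' * z i)).re := by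
  have hδ : 0 < η / 2 := by positivity
  choose κ m α a0 a1 a2 a3 a4 a5 a6 a7 a8 using
    fun i => approx hδ hH0 (hlen i).1 (hlen i).2 (u i)
  choose κ' m' α' b0 b1 b2 b3 b4 b5 b6 b7 b8 using
    fun i => approx hδ hH0 (hlen' i).1 (hlen' i).2 (v i)
  have hHr : (0 : ℝ) < H := by exact_mod_cast hH0
  set M : ℝ := max 1 (2 / η) with hM
  have hM1 : 1 ≤ M := le_max_left _ _
  have hMδ : max 1 (1 / (η / 2)) = M := by
    rw [hM]
    congr 1
    field_simp
  have hM0 : 0 < M := by linarith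
  refine ⟨fun i h h' => -(α i h * α' i h') / ((M ^ 2 : ℝ) : ℂ), ?_, ?_⟩
  · intro i h h'
    rw [norm_div, norm_neg, norm_mul, Complex.norm_real, Real.norm_eq_abs,
      abs_of_pos (by positivity), div_le_one (by positivity)]
    have c1 := a7 i h
    have c2 := b7 i h'
    rw [hMδ] at c1 c2
    rw [sq]
    exact mul_le_mul c1 c2 (norm_nonneg _) hM0.le
  · intro T k y z hTk hk
    by_contra hcon
    push Not at hcon
    have hTk' : (#T : ℝ) ≤ k := by exact_mod_cast hTk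
    -- the truncated polynomials
    set P : ℕ → ℂ := fun i => ∑ h ∈ Icc (-(H : ℤ)) H, α i h * ee (h * y i) with hP
    set Q : ℕ → ℂ := fun i => ∑ h ∈ Icc (-(H : ℤ)) H, α' i h * ee (h * z i) with hQ
    have eps1 : 2 / (η / 2) / (H : ℝ) ≤ η / 12 := by
      rw [div_le_iff₀ hHr]
      have : 2 / (η / 2) = η / 12 * (48 / η ^ 2) := by
        field_simp
        norm_num
      rw [this]
      gcongr
    have p1 : ∀ i, ‖(κ i (y i) : ℂ) - P i‖ ≤ η / 12 := fun i => (a8 i (y i)).trans eps1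
    have q1 : ∀ i, ‖(κ' i (z i) : ℂ) - Q i‖ ≤ η / 12 := fun i => (b8 i (z i)).trans eps1
    rcases Nat.eq_zero_or_pos k with hk0 | hk0
    · subst hk0
      have hT : T = ∅ := card_eq_zero.mp (by omega)
      have h8 := hcon 1 0 (by simp) (by simp; omega) (by simp)
      rw [hT] at h8
      simp at h8
    have hkr : (0 : ℝ) < k := by exact_mod_cast hk0
    -- `η ≤ 1`, otherwise the hypothesis fails
    have hη1 : η ≤ 1 := by
      by_contra hη1
      push Not at hη1
      have c1 : ∑ i ∈ T, len i * len' i ≤ #T := by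
        have : ∑ i ∈ T, len i * len' i ≤ ∑ i ∈ T, (1 : ℝ) := sum_le_sum fun i _ => by
          calc len i * len' i ≤ 1 * 1 :=
                mul_le_mul (hlen i).2 (hlen' i).2 (hlen' i).1 zero_le_one
            _ = 1 := one_mul _
        simpa using this
      have c2 : (0 : ℝ) ≤ #{i ∈ T | Int.fract (y i - u i) < len i ∧
          Int.fract (z i - v i) < len' i} := Nat.cast_nonneg _
      nlinarith
    have e1 : ∑ i ∈ T, κ i (y i) * κ' i (z i) ≤ ∑ i ∈ T, len i * len' i - η * k := by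
      refine le_trans ?_ hk
      rw [card_filter]
      push_cast
      refine sum_le_sum fun i _ => ?_
      split_ifs with h
      · calc κ i (y i) * κ' i (z i) ≤ 1 * 1 :=
              mul_le_mul (a1 i _) (b1 i _) (b0 i _) zero_le_one
          _ = 1 := one_mul _
      · rw [not_and_or] at h
        rcases h with h | h
        · rw [a2 i _ (not_lt.mp h), zero_mul]
        · rw [b2 i _ (not_lt.mp h), mul_zero]
    have e2 : ∑ i ∈ T, len i * len' i - η / 2 * k ≤ ∑ i ∈ T, m i * m' i := by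
      have c1 : ∑ i ∈ T, (len i * len' i - η / 2) ≤ ∑ i ∈ T, m i * m' i := by
        refine sum_le_sum fun i _ => ?_
        have c2 : len i * (len' i - m' i) ≤ 1 * (η / 4) :=
          mul_le_mul (hlen i).2 (by linarith [b3 i]) (by linarith [b5 i]) zero_le_one
        have c3 : m' i * (len i - m i) ≤ 1 * (η / 4) :=
          mul_le_mul ((b5 i).trans (hlen' i).2) (by linarith [a3 i]) (by linarith [a5 i])
            zero_le_one
        nlinarith
      rw [sum_sub_distrib, sum_const, nsmul_eq_mul] at c1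
      nlinarith
    have e3 : ∑ i ∈ T, (κ i (y i) * κ' i (z i) - m i * m' i) ≤ -(η / 2 * k) := by
      rw [sum_sub_distrib]
      linarith
    -- approximation of the products
    have e4 : ∀ i, ‖((κ i (y i) * κ' i (z i) : ℝ) : ℂ) - P i * Q i‖ ≤ η / 4 := by
      intro i
      have d1 : ((κ i (y i) * κ' i (z i) : ℝ) : ℂ) - P i * Q i =
          ((κ i (y i) : ℂ) - P i) * (κ' i (z i) : ℂ) + P i * ((κ' i (z i) : ℂ) - Q i) := by
        push_cast
        ring
      have d2 : ‖(κ' i (z i) : ℂ)‖ ≤ 1 := by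
        rw [Complex.norm_real, Real.norm_eq_abs, abs_of_nonneg (b0 i _)]
        exact b1 i _
      have d3 : ‖(κ i (y i) : ℂ)‖ ≤ 1 := by
        rw [Complex.norm_real, Real.norm_eq_abs, abs_of_nonneg (a0 i _)]
        exact a1 i _
      have d4 : ‖P i‖ ≤ 2 := by
        have d5 : P i = (κ i (y i) : ℂ) - ((κ i (y i) : ℂ) - P i) := by ring
        rw [d5]
        refine (norm_sub_le _ _).trans ?_
        have := p1 i
        linarith
      rw [d1]
      refine (norm_add_le _ _).trans ?_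
      rw [norm_mul, norm_mul]
      have d6 : ‖(κ i (y i) : ℂ) - P i‖ * ‖(κ' i (z i) : ℂ)‖ ≤ η / 12 * 1 :=
        mul_le_mul (p1 i) d2 (norm_nonneg _) (by positivity)
      have d7 : ‖P i‖ * ‖(κ' i (z i) : ℂ) - Q i‖ ≤ 2 * (η / 12) :=
        mul_le_mul d4 (q1 i) (norm_nonneg _) (by norm_num)
      linarith
    have e5 : (∑ i ∈ T, (P i * Q i - ((m i * m' i : ℝ) : ℂ))).re ≤ -(η / 4 * k) := by
      have d1 : ∀ i ∈ T, (P i * Q i - ((m i * m' i : ℝ) : ℂ)).re ≤
          (κ i (y i) * κ' i (z i) - m i * m' i) + η / 4 := by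
        intro i _
        have d2 : (P i * Q i - ((m i * m' i : ℝ) : ℂ)) =
            (((κ i (y i) * κ' i (z i) - m i * m' i) : ℝ) : ℂ) -
              (((κ i (y i) * κ' i (z i) : ℝ) : ℂ) - P i * Q i) := by
          push_cast
          ring
        rw [d2, Complex.sub_re, Complex.ofReal_re]
        have d3 := (abs_le.mp (Complex.abs_re_le_norm
          (((κ i (y i) * κ' i (z i) : ℝ) : ℂ) - P i * Q i))).1
        have d4 := e4 i
        linarith
      rw [Complex.re_sum]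
      refine (sum_le_sum d1).trans ?_
      rw [sum_add_distrib, sum_const, nsmul_eq_mul]
      nlinarith
    -- expansion of the product
    set D : Finset (ℤ × ℤ) := (Icc (-(H : ℤ)) H ×ˢ Icc (-(H : ℤ)) H).erase (0, 0) with hD
    have h00 : ((0 : ℤ), (0 : ℤ)) ∈ Icc (-(H : ℤ)) H ×ˢ Icc (-(H : ℤ)) H := by
      simp [mem_product]
    have e6 : ∀ i, P i * Q i - ((m i * m' i : ℝ) : ℂ) =
        ∑ x ∈ D, α i x.1 * α' i x.2 * ee (x.1 * y i + x.2 * z i) := by
      intro i
      simp only [hP, hQ]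
      rw [sum_mul_sum, ← sum_product', hD, ← add_sum_erase _ _ h00]
      simp only []
      rw [a6, b6]
      simp only [Int.cast_zero, zero_mul, ee_zero, mul_one]
      push_cast
      rw [add_sub_cancel_left]
      refine sum_congr rfl fun x _ => ?_
      rw [ee_add]
      ring
    simp only [e6] at e5
    rw [sum_comm] at e5
    have hcard : (#D : ℝ) ≤ (2 * H + 1) ^ 2 := by
      have d1 : #D ≤ (2 * H + 1) ^ 2 := by
        refine (card_erase_le).trans ?_
        rw [card_product, Int.card_Icc]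
        have : ((H : ℤ) + 1 - -(H : ℤ)).toNat = 2 * H + 1 := by omega
        rw [this, sq]
      exact_mod_cast d1
    have hDne : D.Nonempty := by
      refine ⟨(1, 0), ?_⟩
      rw [hD, mem_erase, mem_product, mem_Icc, mem_Icc]
      refine ⟨by simp, ?_⟩
      constructor <;> constructor <;> push_cast <;> omega
    have e7 : ∀ x ∈ D, -(η / 4 / (2 * H + 1) ^ 2 * k) <
        (∑ i ∈ T, α i x.1 * α' i x.2 * ee (x.1 * y i + x.2 * z i)).re := by
      intro x hx
      rw [hD, mem_erase, mem_product, mem_Icc, mem_Icc] at hx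
      obtain ⟨hx0, ⟨hx1, hx2⟩, hx3, hx4⟩ := hx
      have h8 := hcon x.1 x.2 (fun h h' => hx0 (Prod.ext h h')) (abs_le.mpr ⟨hx1, hx2⟩)
        (abs_le.mpr ⟨hx3, hx4⟩)
      have h9 : ∑ i ∈ T, -(α i x.1 * α' i x.2) / ((M ^ 2 : ℝ) : ℂ) *
          ee (x.1 * y i + x.2 * z i) =
          ((-(1 / M ^ 2) : ℝ) : ℂ) *
            ∑ i ∈ T, α i x.1 * α' i x.2 * ee (x.1 * y i + x.2 * z i) := by
        rw [mul_sum]
        refine sum_congr rfl fun i _ => ?_
        push_cast
        ring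
      rw [h9, Complex.re_ofReal_mul] at h8
      set R := (∑ i ∈ T, α i x.1 * α' i x.2 * ee (x.1 * y i + x.2 * z i)).re with hR
      have h10 : η / 4 / (M ^ 2 * (2 * H + 1) ^ 2) * k =
          (1 / M ^ 2) * (η / 4 / (2 * H + 1) ^ 2 * k) := by
        field_simp
      rw [h10] at h8
      have h11 : (1 / M ^ 2) * (-R) < (1 / M ^ 2) * (η / 4 / (2 * H + 1) ^ 2 * k) := by
        linarith
      have h12 := lt_of_mul_lt_mul_left h11 (by positivity)
      linarith
    have e8 := sum_lt_sum_of_nonempty hDne e7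
    rw [sum_const, nsmul_eq_mul, ← Complex.re_sum] at e8
    have e9 : -(η / 4 * k) ≤ (#D : ℝ) * -(η / 4 / (2 * H + 1) ^ 2 * k) := by
      have d1 : (#D : ℝ) * (η / 4 / (2 * H + 1) ^ 2 * k) ≤
          (2 * H + 1) ^ 2 * (η / 4 / (2 * H + 1) ^ 2 * k) := by gcongr
      have d2 : ((2 * H + 1) ^ 2 : ℝ) * (η / 4 / (2 * H + 1) ^ 2 * k) = η / 4 * k := by
        field_simp
      linarith
    linarith

/-- **Weyl's criterion in two variables**, for boxes depending on the index. -/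
theorem weyl_arcs2 {η : ℝ} (hη : 0 < η) : ∃ (H : ℕ) (e : ℝ), 0 < e ∧
    ∀ u len v len' : ℕ → ℝ, (∀ i, 0 ≤ len i ∧ len i ≤ 1) → (∀ i, 0 ≤ len' i ∧ len' i ≤ 1) →
    ∃ c : Fin 3 → ℕ → ℤ → ℤ → ℂ, (∀ s i h h', ‖c s i h h'‖ ≤ 1) ∧
      ∀ (T : Finset ℕ) (k : ℕ) (y z : ℕ → ℝ), #T ≤ k →
        η * k ≤ |(#{i ∈ T | Int.fract (y i - u i) < len i ∧ Int.fract (z i - v i) < len' i} : ℝ) -
          ∑ i ∈ T, len i * len' i| →
        ∃ (s : Fin 3) (h h' : ℤ), ¬ (h = 0 ∧ h' = 0) ∧ |h| ≤ H ∧ |h'| ≤ H ∧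
          e * k ≤ (∑ i ∈ T, c s i h h' * ee (h * y i + h' * z i)).re := by
  have hη2 : 0 < η / 2 := by positivity
  obtain ⟨H, hH⟩ := exists_nat_ge (48 / (η / 2) ^ 2)
  have hHr : (0 : ℝ) < H := lt_of_lt_of_le (by positivity) hH
  have hH0 : 0 < H := by exact_mod_cast hHr
  refine ⟨H, η / 2 / 4 / (max 1 (2 / (η / 2)) ^ 2 * (2 * H + 1) ^ 2), by positivity,
    fun u len v len' hlen hlen' => ?_⟩
  have hcl : ∀ i, 0 ≤ 1 - len i ∧ 1 - len i ≤ 1 := fun i =>
    ⟨by linarith [(hlen i).2], by linarith [(hlen i).1]⟩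
  have hcl' : ∀ i, 0 ≤ 1 - len' i ∧ 1 - len' i ≤ 1 := fun i =>
    ⟨by linarith [(hlen' i).2], by linarith [(hlen' i).1]⟩
  -- few hits; few hits of the complement in the first variable; of the second
  obtain ⟨c₀, hc₀, h₀⟩ := low2 hη2 hH0 hH u len v len' hlen hlen'
  obtain ⟨c₁, hc₁, h₁⟩ := low2 hη2 hH0 hH (fun i => u i + len i) (fun i => 1 - len i)
    (fun _ => 0) (fun _ => 1) hcl (fun _ => ⟨zero_le_one, le_rfl⟩)
  obtain ⟨c₂, hc₂, h₂⟩ := low2 hη2 hH0 hH u len (fun i => v i + len' i) (fun i => 1 - len' i)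
    hlen hcl'
  refine ⟨![c₀, c₁, c₂], ?_, ?_⟩
  · intro s
    fin_cases s
    · exact hc₀
    · exact hc₁
    · exact hc₂
  · intro T k y z hTk hk
    have hk0 : (0 : ℝ) ≤ k := Nat.cast_nonneg _
    rcases le_abs.mp hk with h | h
    · -- many hits
      have e0 : (#{i ∈ T | Int.fract (y i - u i) < len i} : ℝ) =
          #{i ∈ T | Int.fract (y i - u i) < len i ∧ Int.fract (z i - v i) < len' i} +
          #{i ∈ T | Int.fract (y i - u i) < len i ∧
            Int.fract (z i - (v i + len' i)) < 1 - len' i} := by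
        have d1 := card_filter_add_card_filter_not
          (s := {i ∈ T | Int.fract (y i - u i) < len i})
          (fun i => Int.fract (z i - v i) < len' i)
        rw [filter_filter, filter_filter] at d1
        have d2 : ({i ∈ T | Int.fract (y i - u i) < len i ∧
            Int.fract (z i - (v i + len' i)) < 1 - len' i} : Finset ℕ) =
            {i ∈ T | Int.fract (y i - u i) < len i ∧ ¬ Int.fract (z i - v i) < len' i} :=
          filter_congr fun i _ => by rw [fract_compl (hlen' i).1 (hlen' i).2]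
        rw [d2]
        exact_mod_cast d1.symm
      have e1 : (#{i ∈ T | Int.fract (y i - (u i + len i)) < 1 - len i ∧
          Int.fract (z i - 0) < 1} : ℝ) = #T - #{i ∈ T | Int.fract (y i - u i) < len i} := by
        have d2 : ({i ∈ T | Int.fract (y i - (u i + len i)) < 1 - len i ∧
            Int.fract (z i - 0) < 1} : Finset ℕ) = {i ∈ T | ¬ Int.fract (y i - u i) < len i} :=
          filter_congr fun i _ => by
            rw [fract_compl (hlen i).1 (hlen i).2]
            exact and_iff_left (Int.fract_lt_one _)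
        have d1 := card_filter_add_card_filter_not (s := T)
          (fun i => Int.fract (y i - u i) < len i)
        rw [d2]
        have d3 : (#{i ∈ T | Int.fract (y i - u i) < len i} : ℝ) +
            #{i ∈ T | ¬ Int.fract (y i - u i) < len i} = #T := by
          exact_mod_cast d1
        linarith
      by_cases hA : (#{i ∈ T | Int.fract (y i - u i) < len i} : ℝ) ≤
          ∑ i ∈ T, len i + η / 2 * k
      · have e2 : (#{i ∈ T | Int.fract (y i - u i) < len i ∧
            Int.fract (z i - (v i + len' i)) < 1 - len' i} : ℝ) ≤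
            ∑ i ∈ T, len i * (1 - len' i) - η / 2 * k := by
          have d1 : ∑ i ∈ T, len i * (1 - len' i) = ∑ i ∈ T, len i - ∑ i ∈ T, len i * len' i := by
            rw [← sum_sub_distrib]
            exact sum_congr rfl fun i _ => by ring
          rw [d1]
          linarith
        obtain ⟨n, n', q1, q2, q3, q4⟩ := h₂ T k y z hTk e2
        exact ⟨2, n, n', q1, q2, q3, q4⟩
      · push Not at hA
        have e2 : (#{i ∈ T | Int.fract (y i - (u i + len i)) < 1 - len i ∧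
            Int.fract (z i - 0) < 1} : ℝ) ≤ ∑ i ∈ T, (1 - len i) * 1 - η / 2 * k := by
          rw [e1]
          have d1 : ∑ i ∈ T, (1 - len i) * 1 = #T - ∑ i ∈ T, len i := by
            simp
          rw [d1]
          linarith
        obtain ⟨n, n', q1, q2, q3, q4⟩ := h₁ T k y z hTk e2
        exact ⟨1, n, n', q1, q2, q3, q4⟩
    · obtain ⟨n, n', q1, q2, q3, q4⟩ := h₀ T k y z hTk (by nlinarith)
      exact ⟨0, n, n', q1, q2, q3, q4⟩

/-- the same for the indices below `k` -/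
theorem weyl_arcs2_range {η : ℝ} (hη : 0 < η) : ∃ (H : ℕ) (e : ℝ), 0 < e ∧
    ∀ u l u' l' : ℕ → ℝ, (∀ i, 0 ≤ l i ∧ l i ≤ 1 ∧ 0 ≤ l' i ∧ l' i ≤ 1) →
    ∃ c : Fin 3 → ℕ → ℤ → ℤ → ℂ, (∀ s i p q, ‖c s i p q‖ ≤ 1) ∧
      ∀ (k : ℕ) (y z : ℕ → ℝ),
        η * k ≤ |(#{i ∈ range k | Int.fract (y i - u i) < l i ∧
          Int.fract (z i - u' i) < l' i} : ℝ) - ∑ i ∈ range k, l i * l' i| →
        ∃ (s : Fin 3) (p q : ℤ), |p| ≤ H ∧ |q| ≤ H ∧ (p, q) ≠ (0, 0) ∧
          e * k ≤ (∑ i ∈ range k, c s i p q * ee (p * y i + q * z i)).re := by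
  obtain ⟨H, e, he, h⟩ := weyl_arcs2 hη
  refine ⟨H, e, he, fun u l u' l' hl => ?_⟩
  obtain ⟨c, hc, h'⟩ := h u l u' l' (fun i => ⟨(hl i).1, (hl i).2.1⟩)
    (fun i => ⟨(hl i).2.2.1, (hl i).2.2.2⟩)
  refine ⟨c, hc, fun k y z hk => ?_⟩
  obtain ⟨s, p, q, h1, h2, h3, h4⟩ := h' (range k) k y z (by rw [card_range]) hk
  refine ⟨s, p, q, h2, h3, fun h5 => h1 ?_, h4⟩
  rwa [Prod.mk.injEq] at h5

end Pool.Agent.Helper73.NM
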